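import Pool.Agent.NPC.Defs

/-!
# Single-vehicle scheduling on a path with release and handling times: definitions
-/

namespace Pool.Agent.R872.VS

/-- An instance of the single-vehicle scheduling problem on a path, with a bound.  The vertices of
the path are numbered `0, 1, …, n - 1` in their order along the path.  An instance
`((jobs, edges), (start, bound))` consists of the list of the pairs (release time, handling time) of
the jobs at the vertices `0, 1, …, n - 1`, the list of the pairs (travel time from `i` to `i + 1`,
travel time from `i + 1` to `i`) of the edges `{0, 1}, {1, 2}, …, {n - 2, n - 1}`, the start vertex,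
and the bound on the completion time. -/
abbrev Inst : Type := (List (ℕ × ℕ) × List (ℕ × ℕ)) × (ℕ × ℕ)

namespace Inst

/-- The number of vertices (and of jobs). -/
def n (I : Inst) : ℕ := I.1.1.length

/-- The release time of the job at vertex `v`. -/
def rel (I : Inst) (v : ℕ) : ℕ := (I.1.1.getD v (0, 0)).1

/-- The handling time of the job at vertex `v`. -/
def hand (I : Inst) (v : ℕ) : ℕ := (I.1.1.getD v (0, 0)).2

/-- The travel time over the edge `{i, i + 1}` from `i` to `i + 1`. -/
def right (I : Inst) (i : ℕ) : ℕ := (I.1.2.getD i (0, 0)).1

/-- The travel time over the edge `{i, i + 1}` from `i + 1` to `i`. -/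
def left (I : Inst) (i : ℕ) : ℕ := (I.1.2.getD i (0, 0)).2

/-- The start vertex. -/
def start (I : Inst) : ℕ := I.2.1

/-- The bound on the completion time. -/
def bound (I : Inst) : ℕ := I.2.2

/-- The travel time from `u` to `v` along the path. -/
def travel (I : Inst) (u v : ℕ) : ℕ :=
  if u ≤ v then ∑ i ∈ Finset.Ico u v, I.right i else ∑ i ∈ Finset.Ico v u, I.left i

/-- The time at which the vehicle is back at the start vertex if at time `t` it is at vertex `u`
(not processing a job) and it still has to process the jobs of the list, in this order: it travels
to the next job, waits until this is released, processes it, and goes on; in the end it returns to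
the start vertex. -/
def finish (I : Inst) : ℕ → ℕ → List ℕ → ℕ
  | u, t, [] => t + I.travel u I.start
  | u, t, v :: l => finish I v (max (t + I.travel u v) (I.rel v) + I.hand v) l

/-- The completion time of a schedule. -/
def completion (I : Inst) (π : List ℕ) : ℕ := I.finish I.start 0 π

/-- The data describe a path with at least one vertex, one of the vertices being the start
vertex. -/
def WellFormed (I : Inst) : Prop := I.1.2.length + 1 = I.n ∧ I.start < I.n

/-- Some schedule (a permutation of all jobs) has completion time at most the given bound. -/
def Feasible (I : Inst) : Prop :=
  ∃ π : List ℕ, π.Perm (List.range I.n) ∧ I.completion π ≤ I.bound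

end Inst

end Pool.Agent.R872.VS
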