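import Pool.Agent.R872.VS.TV

/-!
# The lower bound for the instances of the reduction
-/

namespace Pool.Agent.R872.VS

/-- The edge lengths: the edges with even numbers have length `L`, the edge `2 k + 1` has length
`a k`. -/
def wt (L : ℕ) (a : ℕ → ℕ) (e : ℕ) : ℕ := if e % 2 = 0 then L else a (e / 2)

/-- Position of vertex `v`. -/
def px (L : ℕ) (a : ℕ → ℕ) (v : ℕ) : ℕ := ∑ e ∈ Finset.range v, wt L a e

theorem wt_even (L : ℕ) (a : ℕ → ℕ) (k : ℕ) : wt L a (2 * k) = L := by simp [wt]

theorem wt_odd (L : ℕ) (a : ℕ → ℕ) (k : ℕ) : wt L a (2 * k + 1) = a k := by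
  have h1 : (2 * k + 1) % 2 = 1 := by omega
  have h2 : (2 * k + 1) / 2 = k := by omega
  simp [wt, h1, h2]

theorem px_zero (L : ℕ) (a : ℕ → ℕ) : px L a 0 = 0 := by simp [px]

theorem px_succ (L : ℕ) (a : ℕ → ℕ) (v : ℕ) : px L a (v + 1) = px L a v + wt L a v := by
  simp [px, Finset.sum_range_succ]

theorem px_even (L : ℕ) (a : ℕ → ℕ) (k : ℕ) :
    px L a (2 * k) = k * L + ∑ j ∈ Finset.range k, a j := by
  induction k with
  | zero => simp [px]
  | succ k ih =>
    rw [show 2 * (k + 1) = 2 * k + 1 + 1 by ring, px_succ, px_succ, ih, wt_even, wt_odd,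
      Finset.sum_range_succ]
    ring

theorem px_odd (L : ℕ) (a : ℕ → ℕ) (k : ℕ) :
    px L a (2 * k + 1) = (k + 1) * L + ∑ j ∈ Finset.range k, a j := by
  rw [px_succ, px_even, wt_even]
  ring

theorem px_mono (L : ℕ) (a : ℕ → ℕ) {u v : ℕ} (h : u ≤ v) : px L a u ≤ px L a v :=
  Finset.sum_le_sum_of_subset (Finset.range_mono h)

/-- The indicator of being to the right of an edge. -/
def ind (e v : ℕ) : ℤ := if e < v then 1 else 0

theorem px_decomp (L : ℕ) (a : ℕ → ℕ) (N : ℕ) (u v : ℕ) (hu : u ≤ N) (hv : v ≤ N) :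
    |(px L a u : ℤ) - px L a v| = ∑ e ∈ Finset.range N, (wt L a e : ℤ) * |ind e u - ind e v| := by
  have key : ∀ u ≤ N, (px L a u : ℤ) = ∑ e ∈ Finset.range N, (wt L a e : ℤ) * ind e u := by
    intro u hu
    simp only [ind, mul_ite, mul_one, mul_zero]
    rw [← Finset.sum_filter, px]
    push_cast
    refine Finset.sum_congr ?_ fun _ _ => rfl
    ext e
    simp only [Finset.mem_range, Finset.mem_filter]
    omega
  have aux : ∀ u v, u ≤ N → v ≤ N → u ≤ v →
      |(px L a u : ℤ) - px L a v| =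
        ∑ e ∈ Finset.range N, (wt L a e : ℤ) * |ind e u - ind e v| := by
    intro u v hu hv h
    have h1 : (px L a u : ℤ) ≤ px L a v := by exact_mod_cast px_mono L a h
    rw [abs_sub_comm, abs_of_nonneg (by linarith), key u hu, key v hv, ← Finset.sum_sub_distrib]
    refine Finset.sum_congr rfl fun e _ => ?_
    have h2 : ind e u ≤ ind e v := by
      unfold ind
      split_ifs <;> omega
    rw [abs_sub_comm (ind e u), abs_of_nonneg (sub_nonneg.2 h2)]
    ring
  rcases le_total u v with h | h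
  · exact aux u v hu hv h
  · rw [abs_sub_comm, aux v u hv hu h]
    refine Finset.sum_congr rfl fun e _ => ?_
    rw [abs_sub_comm (ind e u)]

/-- Properties of the instances of the reduction. -/
structure IsRed (I : Inst) (n : ℕ) (a : ℕ → ℕ) (t L H S : ℕ) : Prop where
  hS : S = ∑ j ∈ Finset.range n, a j
  hn : I.n = 2 * n + 2
  hstart : I.start = 0
  hbound : I.bound = 2 * ((n + 1) * L + S) + 2 + n * H + 2 * S + 2 * t
  hL : L = t + 1
  hH : H = 2 * S + 2 * t + 1
  htravel : ∀ u v, u ≤ 2 * n + 1 → v ≤ 2 * n + 1 →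
    (I.travel u v : ℤ) = |(px L a u : ℤ) - px L a v|
  hand_zero : I.hand 0 = 1
  hand_odd : ∀ k < n, I.hand (2 * k + 1) = 2 * a k
  hand_even : ∀ k < n, I.hand (2 * k + 2) = H
  hand_last : I.hand (2 * n + 1) = 1
  rel_zero : I.rel 0 = 0
  rel_odd : ∀ k < n, I.rel (2 * k + 1) = 1 + px L a (2 * k + 2) + (k + 1) * H
  rel_even : ∀ k < n, I.rel (2 * k + 2) = 0
  rel_last : I.rel (2 * n + 1) = (n + 1) * L + S + 1 + n * H + 4 * t

namespace IsRed

variable {I : Inst} {n : ℕ} {a : ℕ → ℕ} {t L H S : ℕ}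

theorem px_last (h : IsRed I n a t L H S) : px L a (2 * n + 1) = (n + 1) * L + S := by
  rw [px_odd, h.hS]

/-- The total variation with crossings. -/
theorem tour_ge (h : IsRed I n a t L H S) (l : List ℕ) (hl : ∀ v ∈ l, v ≤ 2 * n + 1)
    (hlast : 2 * n + 1 ∈ l) (E : Finset ℕ) (hE : ∀ e ∈ E, e < 2 * n + 1 ∧
      ∃ u v, e < u ∧ v ≤ e ∧ [u, v, 2 * n + 1].Sublist l) :
    2 * ((n + 1) * L + S) + 2 * ∑ e ∈ E, wt L a e ≤ I.tour 0 l := by
  have h1 : (I.tour 0 l : ℤ) = tv (fun v => ((px L a (min v (2 * n + 1)) : ℕ) : ℤ))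
      (0 :: (l ++ [0])) := by
    have := Inst.tour_eq I (fun v => ((px L a (min v (2 * n + 1)) : ℕ) : ℤ)) (2 * n + 2)
      (by rw [h.hstart]; omega) (fun u v hu hv => by
        rw [h.htravel u v (by omega) (by omega)]
        simp only [min_eq_left (show u ≤ 2 * n + 1 by omega),
          min_eq_left (show v ≤ 2 * n + 1 by omega)]) l 0 (by omega)
      (fun v hv => by have := hl v hv; omega)
    rw [this, h.hstart]
  have h2 := tv_decomp (Finset.range (2 * n + 1))
    (fun v => ((px L a (min v (2 * n + 1)) : ℕ) : ℤ)) (fun e v => ind e (min v (2 * n + 1)))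
    (fun e => (wt L a e : ℤ))
    (fun u v => px_decomp L a (2 * n + 1) _ _ (min_le_right _ _) (min_le_right _ _))
    (0 :: (l ++ [0]))
  have h3 : ∀ e ∈ Finset.range (2 * n + 1),
      (wt L a e : ℤ) * (2 + if e ∈ E then 2 else 0) ≤
        (wt L a e : ℤ) * tv (fun v => ind e (min v (2 * n + 1))) (0 :: (l ++ [0])) := by
    intro e he
    rw [Finset.mem_range] at he
    refine mul_le_mul_of_nonneg_left ?_ (by positivity)
    by_cases heE : e ∈ E
    · rw [if_pos heE]
      obtain ⟨-, u, v, hu, hv, hs⟩ := hE e heE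
      have hs2 : (0 :: ([u, v, 2 * n + 1] ++ [0])).Sublist (0 :: (l ++ [0])) :=
        (hs.append_right [0]).cons_cons 0
      refine le_trans ?_ (tv_sublist _ hs2)
      have e1 : ind e (min 0 (2 * n + 1)) = 0 := by simp [ind]
      have e2 : ind e (min u (2 * n + 1)) = 1 := by
        unfold ind; rw [if_pos]; omega
      have e3 : ind e (min v (2 * n + 1)) = 0 := by
        unfold ind; rw [if_neg]; omega
      have e4 : ind e (min (2 * n + 1) (2 * n + 1)) = 1 := by
        unfold ind; rw [if_pos]; omega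
      simp only [List.cons_append, List.nil_append, tv, e1, e2, e3, e4]
      norm_num
    · rw [if_neg heE]
      have hs : [2 * n + 1].Sublist l := List.singleton_sublist.2 hlast
      have hs2 : (0 :: ([2 * n + 1] ++ [0])).Sublist (0 :: (l ++ [0])) :=
        (hs.append_right [0]).cons_cons 0
      refine le_trans ?_ (tv_sublist _ hs2)
      have e1 : ind e (min 0 (2 * n + 1)) = 0 := by simp [ind]
      have e4 : ind e (min (2 * n + 1) (2 * n + 1)) = 1 := by
        unfold ind; rw [if_pos]; omega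
      simp only [List.cons_append, List.nil_append, tv, e1, e4]
      norm_num
  have h4 := Finset.sum_le_sum h3
  rw [← h2, ← h1] at h4
  have h5 : ∑ e ∈ Finset.range (2 * n + 1), (wt L a e : ℤ) * (2 + if e ∈ E then 2 else 0) =
      2 * (px L a (2 * n + 1) : ℤ) + 2 * ∑ e ∈ E, (wt L a e : ℤ) := by
    have hEs : E ⊆ Finset.range (2 * n + 1) := fun e he => Finset.mem_range.2 (hE e he).1
    simp only [mul_add, Finset.sum_add_distrib, mul_ite, mul_zero]
    rw [← Finset.sum_mul, ← Finset.sum_filter, Finset.filter_mem_eq_inter,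
      Finset.inter_eq_right.2 hEs, ← Finset.sum_mul, px]
    push_cast
    ring
  rw [h5, h.px_last] at h4
  exact_mod_cast h4

end IsRed

end Pool.Agent.R872.VS
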