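import Pool.Agent.R872.VS.Lower

/-!
# The lower bound for the instances of the reduction, continued
-/

namespace Pool.Agent.R872.VS

theorem sum_hand_ge (f : ℕ → ℕ) (l : List ℕ) (hl : l.Nodup) (T : Finset ℕ) (hT : ∀ v ∈ T, v ∈ l) :
    ∑ v ∈ T, f v ≤ (l.map f).sum := by
  rw [← List.sum_toFinset f hl]
  exact Finset.sum_le_sum_of_subset fun v hv => List.mem_toFinset.2 (hT v hv)

theorem sum_range_odd (f : ℕ → ℕ) (m : ℕ) : ∑ v ∈ Finset.range (2 * m + 1), f v =
    f 0 + ∑ k ∈ Finset.range m, (f (2 * k + 1) + f (2 * k + 2)) := by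
  induction m with
  | zero => simp
  | succ m ih =>
    rw [show 2 * (m + 1) + 1 = 2 * m + 1 + 1 + 1 by ring, Finset.sum_range_succ,
      Finset.sum_range_succ, ih, Finset.sum_range_succ]
    ring

namespace IsRed

variable {I : Inst} {n : ℕ} {a : ℕ → ℕ} {t L H S : ℕ}

theorem tour_from (h : IsRed I n a t L H S) (u : ℕ) (hu : u ≤ 2 * n + 1) (l : List ℕ)
    (hl : ∀ v ∈ l, v ≤ 2 * n + 1) (l' : List ℕ) (hs : l'.Sublist l) :
    tv (fun v => (px L a v : ℤ)) (u :: (l' ++ [0])) ≤ (I.tour u l : ℤ) := by
  have := Inst.tour_eq I (fun v => (px L a v : ℤ)) (2 * n + 2)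
      (by rw [h.hstart]; omega) (fun u v hu hv => h.htravel u v (by omega) (by omega))
      l u (by omega) (fun v hv => by have := hl v hv; omega)
  rw [this, h.hstart]
  exact tv_sublist _ ((hs.append_right [0]).cons_cons u)

theorem tour_ge_back (h : IsRed I n a t L H S) (l : List ℕ)
    (hl : ∀ v ∈ l, v ≤ 2 * n + 1) : (n + 1) * L + S ≤ I.tour (2 * n + 1) l := by
  have h1 := h.tour_from (2 * n + 1) le_rfl l hl [] (List.nil_sublist _)
  simp only [List.nil_append, tv, px_zero] at h1
  rw [h.px_last] at h1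
  have h2 := le_abs_self ((((n + 1) * L + S : ℕ) : ℤ) - ((0 : ℕ) : ℤ))
  push_cast at h1 h2
  zify
  linarith

theorem tour_ge_via (h : IsRed I n a t L H S) (u : ℕ) (hu : u ≤ 2 * n + 1) (l : List ℕ)
    (hl : ∀ v ∈ l, v ≤ 2 * n + 1) (hm : 2 * n + 1 ∈ l) :
    2 * ((n + 1) * L + S) ≤ I.tour u l + px L a u := by
  have h1 := h.tour_from u hu l hl [2 * n + 1] (List.singleton_sublist.2 hm)
  simp only [List.cons_append, List.nil_append, tv, px_zero] at h1
  rw [h.px_last] at h1
  have h2 := le_abs_self ((((n + 1) * L + S : ℕ) : ℤ) - ((0 : ℕ) : ℤ))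
  have h3 := neg_abs_le ((px L a u : ℤ) - (((n + 1) * L + S : ℕ) : ℤ))
  push_cast at h1 h2 h3
  zify
  linarith

theorem sum_hand (h : IsRed I n a t L H S) : ∑ v ∈ Finset.range (2 * n + 2), I.hand v =
    2 + n * H + 2 * S := by
  rw [show 2 * n + 2 = 2 * n + 1 + 1 by ring, Finset.sum_range_succ, sum_range_odd, h.hand_zero,
    h.hand_last]
  have h1 : ∑ k ∈ Finset.range n, (I.hand (2 * k + 1) + I.hand (2 * k + 2)) =
      ∑ k ∈ Finset.range n, (2 * a k + H) := by
    refine Finset.sum_congr rfl fun k hk => ?_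
    rw [Finset.mem_range] at hk
    rw [h.hand_odd k hk, h.hand_even k hk]
  rw [h1, Finset.sum_add_distrib, ← Finset.mul_sum, ← h.hS]
  simp
  ring

theorem lower (h : IsRed I n a t L H S) {π : List ℕ} (hπ : π.Perm (List.range I.n))
    (hC : I.completion π ≤ I.bound) : ∃ A ⊆ Finset.range n, ∑ k ∈ A, a k = t := by
  rw [h.hn] at hπ
  have hnd : π.Nodup := hπ.nodup_iff.2 List.nodup_range
  have hmem : ∀ v, v ∈ π ↔ v ≤ 2 * n + 1 := fun v => by
    rw [hπ.mem_iff, List.mem_range]; omega
  have hle : ∀ v ∈ π, v ≤ 2 * n + 1 := fun v hv => (hmem v).1 hv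
  have hlast : 2 * n + 1 ∈ π := (hmem _).2 le_rfl
  have hsum : (π.map I.hand).sum = 2 + n * H + 2 * S := by
    rw [← h.sum_hand, ← List.sum_toFinset _ hnd]
    refine Finset.sum_congr ?_ fun _ _ => rfl
    ext v
    rw [List.mem_toFinset, hmem, Finset.mem_range]
    omega
  have hC1 : I.tour 0 π + (2 + n * H + 2 * S) ≤ I.bound := by
    have := I.le_finish π I.start 0
    rw [hsum] at this
    unfold Inst.completion at hC
    rw [h.hstart] at this hC
    omega
  have hb := h.hbound
  obtain ⟨p1, p2, hp⟩ := List.append_of_mem hlast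
  -- the item jobs processed before the last vertex
  set A : Finset ℕ := (Finset.range n).filter fun k => 2 * k + 1 ∈ p1 with hA
  have claim1 : ∀ k ∈ A, [2 * k + 2, 2 * k + 1, 2 * n + 1].Sublist π := by
    intro k hk
    rw [hA, Finset.mem_filter, Finset.mem_range] at hk
    obtain ⟨q1, q2, hq⟩ := List.append_of_mem hk.2
    have hsub : ∀ u ∈ q1, [u, 2 * k + 1, 2 * n + 1].Sublist π := by
      intro u hu
      rw [hp, hq]
      have e1 : [u].Sublist q1 := List.singleton_sublist.2 hu
      have e2 : [2 * k + 1].Sublist ((2 * k + 1) :: q2) := (List.nil_sublist _).cons_cons _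
      have e3 : [2 * n + 1].Sublist ((2 * n + 1) :: p2) := (List.nil_sublist _).cons_cons _
      exact (e1.append e2).append e3
    by_contra hcon
    have hk2 : 2 * k + 2 ∉ q1 := fun hh => hcon (hsub _ hh)
    have hj : ∀ j, k ≤ j → j < n → 2 * j + 2 ∉ q1 := by
      intro j hj hjn hjq
      rcases Nat.eq_or_lt_of_le hj with rfl | hlt
      · exact hk2 hjq
      · have h1 := h.tour_ge π hle hlast {2 * k + 2} (by
          intro e he
          rw [Finset.mem_singleton] at he
          subst he
          exact ⟨by omega, 2 * j + 2, 2 * k + 1, by omega, by omega, hsub _ hjq⟩)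
        rw [Finset.sum_singleton, show 2 * k + 2 = 2 * (k + 1) by ring, wt_even] at h1
        have := h.hL
        omega
    have hπ2 : π = q1 ++ (2 * k + 1) :: (q2 ++ (2 * n + 1) :: p2) := by
      rw [hp, hq]; simp
    set l2 := q2 ++ (2 * n + 1) :: p2 with hl2
    have hl2n : l2.Nodup := by
      rw [hπ2] at hnd
      exact (List.nodup_cons.1 (hnd.of_append_right)).2
    have hl2le : ∀ v ∈ l2, v ≤ 2 * n + 1 := fun v hv => hle v (by
      rw [hπ2]; simp [hv])
    have hl2m : 2 * n + 1 ∈ l2 := by rw [hl2]; simp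
    have h2 := I.rel_le_finish (2 * k + 1) l2 q1 I.start 0
    rw [← hπ2] at h2
    have h3 := h.tour_ge_via (2 * k + 1) (by omega) l2 hl2le hl2m
    have h4 : (n - k) * H + 1 ≤ (l2.map I.hand).sum := by
      have h5 := sum_hand_ge I.hand l2 hl2n
        (insert (2 * n + 1) ((Finset.Ico k n).image fun j => 2 * j + 2)) (by
          intro v hv
          rw [Finset.mem_insert, Finset.mem_image] at hv
          rcases hv with rfl | ⟨j, hj1, rfl⟩
          · exact hl2m
          · rw [Finset.mem_Ico] at hj1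
            have h6 : 2 * j + 2 ∈ π := (hmem _).2 (by omega)
            rw [hπ2, List.mem_append, List.mem_cons] at h6
            rcases h6 with h6 | h6 | h6
            · exact absurd h6 (hj j hj1.1 hj1.2)
            · omega
            · exact h6)
      rw [Finset.sum_insert (by
        simp only [Finset.mem_image, not_exists, not_and]
        intro j _ hh
        omega), Finset.sum_image (by intro i _ j _ hij; simpa using hij), h.hand_last] at h5
      have h7 : ∑ j ∈ Finset.Ico k n, I.hand (2 * j + 2) = (n - k) * H := by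
        rw [Finset.sum_congr rfl fun j hj => h.hand_even j (Finset.mem_Ico.1 hj).2]
        simp
      omega
    unfold Inst.completion at hC
    rw [h.rel_odd k hk.1, h.hand_odd k hk.1] at h2
    have h8 : px L a (2 * k + 1) ≤ px L a (2 * k + 2) := px_mono L a (by omega)
    have h9 : (k + 1) * H + (n - k) * H = n * H + H := by
      obtain ⟨d, rfl⟩ := Nat.exists_eq_add_of_lt hk.1
      have : k + d + 1 - k = d + 1 := by omega
      rw [this]
      ring
    have := h.hH
    omega
  have h2 := h.tour_ge π hle hlast (A.image fun k => 2 * k + 1) (by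
    intro e he
    rw [Finset.mem_image] at he
    obtain ⟨k, hk, rfl⟩ := he
    have hk2 := hk
    rw [hA, Finset.mem_filter, Finset.mem_range] at hk2
    exact ⟨by omega, 2 * k + 2, 2 * k + 1, by omega, le_rfl, claim1 k hk⟩)
  rw [Finset.sum_image (by intro i _ j _ hij; simpa using hij)] at h2
  simp only [wt_odd] at h2
  have hp2n : p2.Nodup := by
    rw [hp] at hnd
    exact (List.nodup_cons.1 (hnd.of_append_right)).2
  have hp2le : ∀ v ∈ p2, v ≤ 2 * n + 1 := fun v hv => hle v (by
    rw [hp]; simp [hv])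
  have h3 := I.rel_le_finish (2 * n + 1) p2 p1 I.start 0
  rw [← hp] at h3
  have h4 := h.tour_ge_back p2 hp2le
  have h5 : 2 * ∑ k ∈ (Finset.range n) \ A, a k ≤ (p2.map I.hand).sum := by
    have h6 := sum_hand_ge I.hand p2 hp2n
      (((Finset.range n) \ A).image fun k => 2 * k + 1) (by
        intro v hv
        rw [Finset.mem_image] at hv
        obtain ⟨k, hk, rfl⟩ := hv
        rw [hA, Finset.mem_sdiff, Finset.mem_filter, Finset.mem_range] at hk
        have h7 : 2 * k + 1 ∈ π := (hmem _).2 (by omega)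
        rw [hp, List.mem_append, List.mem_cons] at h7
        rcases h7 with h7 | h7 | h7
        · exact absurd ⟨hk.1, h7⟩ hk.2
        · omega
        · exact h7)
    rw [Finset.sum_image (by intro i _ j _ hij; simpa using hij)] at h6
    have h8 : ∑ k ∈ (Finset.range n) \ A, I.hand (2 * k + 1) =
        2 * ∑ k ∈ (Finset.range n) \ A, a k := by
      rw [Finset.mul_sum]
      refine Finset.sum_congr rfl fun k hk => h.hand_odd k ?_
      exact Finset.mem_range.1 (Finset.mem_sdiff.1 hk).1
    omega
  have hAs : A ⊆ Finset.range n := Finset.filter_subset _ _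
  have h6 := Finset.sum_sdiff (f := a) hAs
  rw [← h.hS] at h6
  rw [h.rel_last, h.hand_last] at h3
  unfold Inst.completion at hC
  refine ⟨A, hAs, ?_⟩
  omega

end IsRed

end Pool.Agent.R872.VS
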