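import Pool.Agent.R872.VS.Upper
import Pool.Agent.H671R2.SubsetSum

/-!
# The reduction from subset sum
-/

namespace Pool.Agent.R872.VS

open Pool.Agent.NPC

theorem subsetSum_iff_bool : ∀ (l : List ℕ) (t : ℕ), (∃ s : List ℕ, s.Sublist l ∧ s.sum = t) ↔
    ∃ σ : ℕ → Bool, ∑ k ∈ Finset.range l.length, (if σ k then l.getD k 0 else 0) = t
  | [], t => by
    constructor
    · rintro ⟨s, hs, rfl⟩
      rw [List.sublist_nil] at hs
      subst hs
      exact ⟨fun _ => false, by simp⟩
    · rintro ⟨σ, h⟩
      exact ⟨[], List.nil_sublist _, by simpa using h⟩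
  | b :: l, t => by
    constructor
    · rintro ⟨s, hs, rfl⟩
      rcases List.sublist_cons_iff.1 hs with hs | ⟨r, rfl, hr⟩
      · obtain ⟨σ, hσ⟩ := (subsetSum_iff_bool l s.sum).1 ⟨s, hs, rfl⟩
        refine ⟨fun k => if k = 0 then false else σ (k - 1), ?_⟩
        rw [List.length_cons, Finset.sum_range_succ']
        simpa using hσ
      · obtain ⟨σ, hσ⟩ := (subsetSum_iff_bool l r.sum).1 ⟨r, hr, rfl⟩
        refine ⟨fun k => if k = 0 then true else σ (k - 1), ?_⟩
        rw [List.length_cons, Finset.sum_range_succ', List.sum_cons]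
        simp only [Nat.add_eq_zero_iff, one_ne_zero, and_false, ↓reduceIte, add_tsub_cancel_right,
          List.getD_cons_succ, List.getD_cons_zero]
        rw [hσ, add_comm]
    · rintro ⟨σ, h⟩
      rw [List.length_cons, Finset.sum_range_succ'] at h
      simp only [List.getD_cons_succ, List.getD_cons_zero] at h
      obtain ⟨s, hs, hss⟩ := (subsetSum_iff_bool l
        (∑ k ∈ Finset.range l.length, (if σ (k + 1) then l.getD k 0 else 0))).2
        ⟨fun k => σ (k + 1), rfl⟩
      by_cases h0 : σ 0 = true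
      · refine ⟨b :: s, hs.cons_cons b, ?_⟩
        rw [if_pos h0] at h
        rw [List.sum_cons, hss, add_comm]
        exact h
      · refine ⟨s, hs.cons b, ?_⟩
        rw [if_neg h0] at h
        rw [hss]
        exact h

theorem subsetSum_iff_finset (l : List ℕ) (t : ℕ) : (∃ s : List ℕ, s.Sublist l ∧ s.sum = t) ↔
    ∃ A ⊆ Finset.range l.length, ∑ k ∈ A, l.getD k 0 = t := by
  rw [subsetSum_iff_bool]
  constructor
  · rintro ⟨σ, h⟩
    refine ⟨(Finset.range l.length).filter fun k => σ k = true, Finset.filter_subset _ _, ?_⟩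
    rw [Finset.sum_filter]
    exact h
  · rintro ⟨A, hA, h⟩
    refine ⟨fun k => decide (k ∈ A), ?_⟩
    simp only [decide_eq_true_eq]
    rw [← Finset.sum_filter, Finset.filter_mem_eq_inter, Finset.inter_eq_right.2 hA]
    exact h

theorem sum_eq_sum_range (l : List ℕ) : l.sum = ∑ k ∈ Finset.range l.length, l.getD k 0 := by
  induction l with
  | nil => simp
  | cons b l ih =>
    rw [List.length_cons, Finset.sum_range_succ', List.sum_cons, ih]
    simp [add_comm]

/-- The gap length. -/
def gL (x : List ℕ × ℕ) : ℕ := x.2 + 1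

/-- The long handling time. -/
def gH (x : List ℕ × ℕ) : ℕ := 2 * x.1.sum + 2 * x.2 + 1

/-- The sum of the items `0, …, k`. -/
def pref (x : List ℕ × ℕ) (k : ℕ) : ℕ :=
  ((List.range x.1.length).map fun j => if j ≤ k then x.1.getD j 0 else 0).sum

/-- The job at a vertex. -/
def job (x : List ℕ × ℕ) (v : ℕ) : ℕ × ℕ :=
  if v = 2 * x.1.length + 1 then
    ((x.1.length + 1) * gL x + x.1.sum + 1 + x.1.length * gH x + 4 * x.2, 1)
  else if v = 0 then (0, 1)
  else if v % 2 = 1 then
    (1 + ((v / 2 + 1) * gL x + pref x (v / 2)) + (v / 2 + 1) * gH x, 2 * x.1.getD (v / 2) 0)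
  else (0, gH x)

/-- The travel times over an edge. -/
def edge (x : List ℕ × ℕ) (e : ℕ) : ℕ × ℕ :=
  if e % 2 = 0 then (gL x, gL x) else (x.1.getD (e / 2) 0, x.1.getD (e / 2) 0)

/-- The instance of the vehicle scheduling problem. -/
def red (x : List ℕ × ℕ) : Inst :=
  (((List.range (2 * x.1.length + 2)).map (job x), (List.range (2 * x.1.length + 1)).map (edge x)),
    (0, 2 * ((x.1.length + 1) * gL x + x.1.sum) + 2 + x.1.length * gH x + 2 * x.1.sum + 2 * x.2))

theorem getD_map_range {α : Type} (F : ℕ → α) (N v : ℕ) (d : α) (h : v < N) :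
    ((List.range N).map F).getD v d = F v := by
  rw [List.getD_eq_getElem?_getD, List.getElem?_map, List.getElem?_range h]
  rfl

theorem pref_eq (x : List ℕ × ℕ) (k : ℕ) (hk : k < x.1.length) :
    pref x k = ∑ j ∈ Finset.range (k + 1), x.1.getD j 0 := by
  unfold pref
  rw [← List.sum_toFinset _ List.nodup_range, List.toFinset_range, ← Finset.sum_filter]
  refine Finset.sum_congr ?_ fun _ _ => rfl
  ext j
  simp only [Finset.mem_filter, Finset.mem_range]
  omega

theorem edge_eq (x : List ℕ × ℕ) (e : ℕ) : edge x e =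
    (wt (gL x) (fun k => x.1.getD k 0) e, wt (gL x) (fun k => x.1.getD k 0) e) := by
  unfold edge wt
  split_ifs <;> rfl

theorem red_right (x : List ℕ × ℕ) (e : ℕ) (he : e < 2 * x.1.length + 1) :
    (red x).right e = wt (gL x) (fun k => x.1.getD k 0) e := by
  unfold Inst.right red
  simp only
  rw [getD_map_range _ _ _ _ he, edge_eq]

theorem red_left (x : List ℕ × ℕ) (e : ℕ) (he : e < 2 * x.1.length + 1) :
    (red x).left e = wt (gL x) (fun k => x.1.getD k 0) e := by
  unfold Inst.left red
  simp only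
  rw [getD_map_range _ _ _ _ he, edge_eq]

theorem sum_Ico_wt (L : ℕ) (a : ℕ → ℕ) {u v : ℕ} (h : u ≤ v) :
    ∑ e ∈ Finset.Ico u v, wt L a e + px L a u = px L a v := by
  unfold px
  rw [add_comm]
  exact Finset.sum_range_add_sum_Ico _ h

theorem red_travel (x : List ℕ × ℕ) (u v : ℕ) (hu : u ≤ 2 * x.1.length + 1)
    (hv : v ≤ 2 * x.1.length + 1) : ((red x).travel u v : ℤ) =
      |(px (gL x) (fun k => x.1.getD k 0) u : ℤ) - px (gL x) (fun k => x.1.getD k 0) v| := by
  unfold Inst.travel
  split_ifs with h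
  · rw [Finset.sum_congr rfl fun e he => red_right x e (by rw [Finset.mem_Ico] at he; omega)]
    have h1 := sum_Ico_wt (gL x) (fun k => x.1.getD k 0) h
    have h2 := px_mono (gL x) (fun k => x.1.getD k 0) h
    rw [abs_sub_comm, abs_of_nonneg (by
      rw [sub_nonneg]; exact_mod_cast h2), ← h1]
    push_cast
    ring
  · have h' : v ≤ u := by omega
    rw [Finset.sum_congr rfl fun e he => red_left x e (by rw [Finset.mem_Ico] at he; omega)]
    have h1 := sum_Ico_wt (gL x) (fun k => x.1.getD k 0) h'
    have h2 := px_mono (gL x) (fun k => x.1.getD k 0) h'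
    rw [abs_of_nonneg (by
      rw [sub_nonneg]; exact_mod_cast h2), ← h1]
    push_cast
    ring

theorem red_job (x : List ℕ × ℕ) (v : ℕ) (hv : v < 2 * x.1.length + 2) :
    (red x).1.1.getD v (0, 0) = job x v := getD_map_range _ _ _ _ hv

theorem isRed (x : List ℕ × ℕ) :
    IsRed (red x) x.1.length (fun k => x.1.getD k 0) x.2 (gL x) (gH x) x.1.sum where
  hS := sum_eq_sum_range x.1
  hn := by simp [Inst.n, red]
  hstart := rfl
  hbound := rfl
  hL := rfl
  hH := rfl
  htravel := red_travel x
  hand_zero := by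
    unfold Inst.hand
    rw [red_job x 0 (by omega)]
    simp [job]
  hand_odd := fun k hk => by
    unfold Inst.hand
    rw [red_job x _ (by omega)]
    have h1 : 2 * k + 1 ≠ 2 * x.1.length + 1 := by omega
    have h2 : (2 * k + 1) % 2 = 1 := by omega
    have h3 : (2 * k + 1) / 2 = k := by omega
    simp only [job, h1, h2, h3, Nat.add_eq_zero_iff, one_ne_zero, and_false, ↓reduceIte]
  hand_even := fun k hk => by
    unfold Inst.hand
    rw [red_job x _ (by omega)]
    have h1 : 2 * k + 2 ≠ 2 * x.1.length + 1 := by omega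
    have h2 : ¬ (2 * k + 2) % 2 = 1 := by omega
    have h3 : 2 * k + 2 ≠ 0 := by omega
    simp only [job, h1, h2, h3, ↓reduceIte]
  hand_last := by
    unfold Inst.hand
    rw [red_job x _ (by omega)]
    simp [job]
  rel_zero := by
    unfold Inst.rel
    rw [red_job x 0 (by omega)]
    simp [job]
  rel_odd := fun k hk => by
    unfold Inst.rel
    rw [red_job x _ (by omega)]
    have h1 : 2 * k + 1 ≠ 2 * x.1.length + 1 := by omega
    have h2 : (2 * k + 1) % 2 = 1 := by omega
    have h3 : (2 * k + 1) / 2 = k := by omega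
    simp only [job, h1, h2, h3, Nat.add_eq_zero_iff, one_ne_zero, and_false, ↓reduceIte]
    rw [pref_eq x k hk, show 2 * k + 2 = 2 * (k + 1) by ring, px_even]
  rel_even := fun k hk => by
    unfold Inst.rel
    rw [red_job x _ (by omega)]
    have h1 : 2 * k + 2 ≠ 2 * x.1.length + 1 := by omega
    have h2 : ¬ (2 * k + 2) % 2 = 1 := by omega
    have h3 : 2 * k + 2 ≠ 0 := by omega
    simp only [job, h1, h2, h3, ↓reduceIte]
  rel_last := by
    unfold Inst.rel
    rw [red_job x _ (by omega)]
    simp [job]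

theorem red_correct (x : List ℕ × ℕ) : R671.SS.SubsetSum x ↔ (red x).Feasible := by
  unfold R671.SS.SubsetSum
  rw [(isRed x).feasible_iff, subsetSum_iff_finset]

/-- The restriction satisfied by the instances of the reduction. -/
def Simple (I : Inst) : Prop :=
  I.WellFormed ∧ I.start = 0 ∧ (∀ v < I.n, 0 < I.hand v) ∧
    ∀ i, i + 1 < I.n → 0 < I.right i ∧ I.right i = I.left i

theorem red_simple (x : List ℕ × ℕ) (hx : R671.SS.Nice x) : Simple (red x) := by
  have hr := isRed x
  have hpos : ∀ k < x.1.length, 0 < x.1.getD k 0 := by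
    intro k hk
    rw [List.getD_eq_getElem _ _ hk]
    exact (hx.1 _ (List.getElem_mem hk)).1
  refine ⟨⟨?_, ?_⟩, hr.hstart, ?_, ?_⟩
  · rw [hr.hn]; simp [red]
  · rw [hr.hn, hr.hstart]; omega
  · intro v hv
    rw [hr.hn] at hv
    rcases Nat.eq_zero_or_pos v with rfl | h0
    · rw [hr.hand_zero]; norm_num
    · rcases Nat.even_or_odd' v with ⟨j, hj | hj⟩
      · obtain ⟨i, rfl⟩ : ∃ i, j = i + 1 := ⟨j - 1, by omega⟩
        rw [hj, show 2 * (i + 1) = 2 * i + 2 by ring, hr.hand_even i (by omega)]
        unfold gH; omega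
      · rcases Nat.lt_or_ge j x.1.length with hjn | hjn
        · rw [hj, hr.hand_odd j hjn]
          have := hpos j hjn
          show 0 < 2 * x.1.getD j 0
          omega
        · have : v = 2 * x.1.length + 1 := by omega
          rw [this, hr.hand_last]; norm_num
  · intro i hi
    rw [hr.hn] at hi
    rw [red_right x i (by omega), red_left x i (by omega)]
    refine ⟨?_, rfl⟩
    unfold wt
    split_ifs with h
    · unfold gL; omega
    · exact hpos _ (by omega)

end Pool.Agent.R872.VS
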