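import Pool.Agent.R872.VS.Red

/-!
# The reduction is polynomial
-/

namespace Pool.Agent.NPC.R872VS

open Pool.Agent.NPC Pool.Agent.R872.VS

theorem two_mul_poly {α : Type} [TEnc α] {f : α → ℕ} (h : Poly f) : Poly fun a => 2 * f a :=
  Poly.mul (Poly.const 2) h

theorem len_poly : Poly fun x : List ℕ × ℕ => x.1.length := Poly.length (Poly.fst Poly.id)

theorem sum_poly : Poly fun x : List ℕ × ℕ => x.1.sum := Poly.sum (Poly.fst Poly.id)

theorem gL_poly : Poly gL := by
  unfold gL
  exact Poly.succ (Poly.snd Poly.id)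

theorem gH_poly : Poly gH := by
  unfold gH
  exact Poly.succ (Poly.add (two_mul_poly sum_poly) (two_mul_poly (Poly.snd Poly.id)))

theorem pref_poly : Poly fun p : (List ℕ × ℕ) × ℕ => pref p.1 p.2 := by
  unfold pref
  refine Poly.sum ?_
  refine Poly.map (l := fun p : (List ℕ × ℕ) × ℕ => List.range p.1.1.length)
    (F := fun p j => if j ≤ p.2 then p.1.1.getD j 0 else 0) ?_ ?_
  · exact UPoly.range (UPoly.length (Poly.fst (Poly.fst Poly.id)))
  · refine Poly.ite ?_ ?_ (Poly.const 0)
    · exact Poly.decide_le (Poly.snd Poly.id) (Poly.snd (Poly.fst Poly.id))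
    · exact Poly.getD (Poly.fst (Poly.fst (Poly.fst Poly.id))) (Poly.snd Poly.id) (Poly.const 0)

theorem job_poly : Poly fun p : (List ℕ × ℕ) × ℕ => job p.1 p.2 := by
  have hx : Poly fun p : (List ℕ × ℕ) × ℕ => p.1 := Poly.fst Poly.id
  have hv : Poly fun p : (List ℕ × ℕ) × ℕ => p.2 := Poly.snd Poly.id
  have hlen : Poly fun p : (List ℕ × ℕ) × ℕ => p.1.1.length := len_poly.comp hx
  have hsum : Poly fun p : (List ℕ × ℕ) × ℕ => p.1.1.sum := sum_poly.comp hx
  have hL : Poly fun p : (List ℕ × ℕ) × ℕ => gL p.1 := gL_poly.comp hx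
  have hH : Poly fun p : (List ℕ × ℕ) × ℕ => gH p.1 := gH_poly.comp hx
  have ht : Poly fun p : (List ℕ × ℕ) × ℕ => p.1.2 := Poly.snd hx
  have hhalf : Poly fun p : (List ℕ × ℕ) × ℕ => p.2 / 2 := Poly.div hv (Poly.const 2)
  have hpref : Poly fun p : (List ℕ × ℕ) × ℕ => pref p.1 (p.2 / 2) :=
    pref_poly.comp (Poly.pair hx hhalf)
  unfold job
  refine Poly.ite (Poly.decide_eq hv (Poly.succ (two_mul_poly hlen))) (Poly.pair ?_ (Poly.const 1)) ?_
  · exact Poly.add (Poly.add (Poly.succ (Poly.add (Poly.mul (Poly.succ hlen) hL) hsum))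
      (Poly.mul hlen hH)) (Poly.mul (Poly.const 4) ht)
  · refine Poly.ite (Poly.decide_eq hv (Poly.const 0)) (Poly.const (0, 1)) ?_
    refine Poly.ite (Poly.decide_eq (Poly.mod hv (Poly.const 2)) (Poly.const 1)) ?_ ?_
    · refine Poly.pair ?_ ?_
      · exact Poly.add (Poly.add (Poly.const 1) (Poly.add (Poly.mul (Poly.succ hhalf) hL) hpref))
          (Poly.mul (Poly.succ hhalf) hH)
      · exact two_mul_poly (Poly.getD (Poly.fst hx) hhalf (Poly.const 0))
    · exact Poly.pair (Poly.const 0) hH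

theorem edge_poly : Poly fun p : (List ℕ × ℕ) × ℕ => edge p.1 p.2 := by
  have hx : Poly fun p : (List ℕ × ℕ) × ℕ => p.1 := Poly.fst Poly.id
  have hv : Poly fun p : (List ℕ × ℕ) × ℕ => p.2 := Poly.snd Poly.id
  have hL : Poly fun p : (List ℕ × ℕ) × ℕ => gL p.1 := gL_poly.comp hx
  have hhalf : Poly fun p : (List ℕ × ℕ) × ℕ => p.2 / 2 := Poly.div hv (Poly.const 2)
  have hget : Poly fun p : (List ℕ × ℕ) × ℕ => p.1.1.getD (p.2 / 2) 0 :=
    Poly.getD (Poly.fst hx) hhalf (Poly.const 0)
  unfold edge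
  exact Poly.ite (Poly.decide_eq (Poly.mod hv (Poly.const 2)) (Poly.const 0)) (Poly.pair hL hL)
    (Poly.pair hget hget)

theorem red_poly : Poly red := by
  have hlen := len_poly
  have hsum := sum_poly
  have hL := gL_poly
  have hH := gH_poly
  have ht : Poly fun x : List ℕ × ℕ => x.2 := Poly.snd Poly.id
  have hu : UPoly fun x : List ℕ × ℕ => 2 * x.1.length :=
    UPoly.mul (UPoly.const 2) (UPoly.length (Poly.fst Poly.id))
  unfold red
  refine Poly.pair (Poly.pair ?_ ?_) (Poly.pair (Poly.const 0) ?_)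
  · exact Poly.map (l := fun x : List ℕ × ℕ => List.range (2 * x.1.length + 2))
      (F := fun x v => job x v) (UPoly.range (UPoly.add hu (UPoly.const 2))) job_poly
  · exact Poly.map (l := fun x : List ℕ × ℕ => List.range (2 * x.1.length + 1))
      (F := fun x v => edge x v) (UPoly.range (UPoly.add hu (UPoly.const 1))) edge_poly
  · exact Poly.add (Poly.add (Poly.add (Poly.add (two_mul_poly (Poly.add
      (Poly.mul (Poly.succ hlen) hL) hsum)) (Poly.const 2)) (Poly.mul hlen hH))
      (two_mul_poly hsum)) (two_mul_poly ht)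

/-- The vehicle scheduling problem on a path is hard, even for simple instances. -/
theorem hardPr_sched : HardPr Simple Inst.Feasible :=
  R671.SS.hardPr_SubsetSum.trans red_poly red_simple fun x _ => red_correct x

end Pool.Agent.NPC.R872VS
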