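import Pool.Agent.R872.VS.Defs

/-!
# Total variation along a list, and lower bounds for completion times
-/

namespace Pool.Agent.R872.VS

/-- The total variation of `f` along a list. -/
def tv (f : ℕ → ℤ) : List ℕ → ℤ
  | [] => 0
  | [_] => 0
  | a :: b :: l => |f a - f b| + tv f (b :: l)

theorem tv_cons_cons (f : ℕ → ℤ) (a b : ℕ) (l : List ℕ) :
    tv f (a :: b :: l) = |f a - f b| + tv f (b :: l) := rfl

theorem tv_nonneg (f : ℕ → ℤ) : ∀ l, 0 ≤ tv f l
  | [] => le_rfl
  | [_] => le_rfl
  | a :: b :: l => by
    rw [tv_cons_cons]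
    exact add_nonneg (abs_nonneg _) (tv_nonneg f (b :: l))

theorem tv_skip (f : ℕ → ℤ) (a b : ℕ) (l : List ℕ) : tv f (a :: l) ≤ tv f (a :: b :: l) := by
  cases l with
  | nil => exact tv_nonneg f _
  | cons c l =>
    rw [tv_cons_cons, tv_cons_cons, tv_cons_cons]
    have := abs_sub_le (f a) (f b) (f c)
    linarith

theorem tv_tail (f : ℕ → ℤ) (a : ℕ) (l : List ℕ) : tv f l ≤ tv f (a :: l) := by
  cases l with
  | nil => exact le_rfl
  | cons c l =>
    rw [tv_cons_cons]
    have := abs_nonneg (f a - f c)
    linarith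

theorem tv_cons_sublist (f : ℕ → ℤ) {l' l : List ℕ} (h : l'.Sublist l) :
    ∀ a, tv f (a :: l') ≤ tv f (a :: l) := by
  induction h with
  | slnil => intro a; exact le_rfl
  | cons b _ ih => intro a; exact (ih a).trans (tv_skip f a b _)
  | cons_cons b _ ih =>
    intro a
    rw [tv_cons_cons, tv_cons_cons]
    have := ih b
    linarith

theorem tv_sublist (f : ℕ → ℤ) {l' l : List ℕ} (h : l'.Sublist l) : tv f l' ≤ tv f l := by
  induction h with
  | slnil => exact le_rfl
  | cons b _ ih => exact ih.trans (tv_tail f b _)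
  | cons_cons b h _ => exact tv_cons_sublist f h b

/-- If the distances decompose then so does the total variation. -/
theorem tv_decomp {ι : Type*} (s : Finset ι) (x : ℕ → ℤ) (g : ι → ℕ → ℤ) (w : ι → ℤ)
    (h : ∀ a b, |x a - x b| = ∑ e ∈ s, w e * |g e a - g e b|) :
    ∀ l, tv x l = ∑ e ∈ s, w e * tv (g e) l
  | [] => by simp [tv]
  | [_] => by simp [tv]
  | a :: b :: l => by
    rw [tv_cons_cons, tv_decomp s x g w h (b :: l), h, ← Finset.sum_add_distrib]
    refine Finset.sum_congr rfl fun e _ => ?_
    rw [tv_cons_cons]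
    ring

namespace Inst

/-- The travel time from `u` through the vertices of the list to the start vertex. -/
def tour (I : Inst) : ℕ → List ℕ → ℕ
  | u, [] => I.travel u I.start
  | u, v :: l => I.travel u v + tour I v l

theorem le_finish (I : Inst) : ∀ (l : List ℕ) (u t : ℕ),
    t + I.tour u l + (l.map I.hand).sum ≤ I.finish u t l
  | [], u, t => by simp [finish, tour]
  | v :: l, u, t => by
    have h := le_finish I l v (max (t + I.travel u v) (I.rel v) + I.hand v)
    have h2 := le_max_left (t + I.travel u v) (I.rel v)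
    simp only [finish, tour, List.map_cons, List.sum_cons]
    omega

theorem rel_le_finish (I : Inst) (v : ℕ) (l2 : List ℕ) : ∀ (l1 : List ℕ) (u t : ℕ),
    I.rel v + I.hand v + I.tour v l2 + (l2.map I.hand).sum ≤ I.finish u t (l1 ++ v :: l2)
  | [], u, t => by
    have h := le_finish I l2 v (max (t + I.travel u v) (I.rel v) + I.hand v)
    have h2 := le_max_right (t + I.travel u v) (I.rel v)
    simp only [finish, List.nil_append]
    omega
  | a :: l1, u, t => by
    simp only [finish, List.cons_append]
    exact rel_le_finish I v l2 l1 _ _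

theorem tour_eq (I : Inst) (x : ℕ → ℤ) (N : ℕ) (hs : I.start < N)
    (hx : ∀ u v, u < N → v < N → (I.travel u v : ℤ) = |x u - x v|) :
    ∀ (l : List ℕ) (u : ℕ), u < N → (∀ v ∈ l, v < N) →
      (I.tour u l : ℤ) = tv x (u :: (l ++ [I.start]))
  | [], u, hu, _ => by
    simp [tour, tv, hx u I.start hu hs]
  | v :: l, u, hu, hl => by
    have hv : v < N := hl v (by simp)
    have := tour_eq I x N hs hx l v hv (fun w hw => hl w (by simp [hw]))
    simp only [tour, List.cons_append]
    push_cast
    rw [this, hx u v hu hv, tv_cons_cons]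

end Inst

end Pool.Agent.R872.VS
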