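import Pool.Agent.R872.VS.Lower2

/-!
# The schedules for the instances of the reduction
-/

namespace Pool.Agent.R872.VS

/-- The outbound part of the schedule: the modules `k, …, k + m - 1`. -/
def outL (A : Finset ℕ) : ℕ → ℕ → List ℕ
  | 0, _ => []
  | m + 1, k => if k ∈ A then (2 * k + 2) :: (2 * k + 1) :: outL A m (k + 1)
      else (2 * k + 2) :: outL A m (k + 1)

/-- The inbound part of the schedule: the modules `m - 1, …, 0`. -/
def inL (A : Finset ℕ) : ℕ → List ℕ
  | 0 => []
  | m + 1 => if m ∈ A then inL A m else (2 * m + 1) :: inL A m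

theorem mem_outL (A : Finset ℕ) (v : ℕ) : ∀ m k, v ∈ outL A m k ↔
    ∃ j, k ≤ j ∧ j < k + m ∧ (v = 2 * j + 2 ∨ (v = 2 * j + 1 ∧ j ∈ A))
  | 0, k => by
    simp only [outL, List.not_mem_nil, false_iff, not_exists, not_and]
    intro j h1 h2
    omega
  | m + 1, k => by
    have ih := mem_outL A v m (k + 1)
    unfold outL
    constructor
    · intro h
      split_ifs at h with hk
      · simp only [List.mem_cons] at h
        rcases h with h | h | h
        · exact ⟨k, le_rfl, by omega, Or.inl h⟩
        · exact ⟨k, le_rfl, by omega, Or.inr ⟨h, hk⟩⟩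
        · obtain ⟨j, h1, h2, h3⟩ := ih.1 h
          exact ⟨j, by omega, by omega, h3⟩
      · simp only [List.mem_cons] at h
        rcases h with h | h
        · exact ⟨k, le_rfl, by omega, Or.inl h⟩
        · obtain ⟨j, h1, h2, h3⟩ := ih.1 h
          exact ⟨j, by omega, by omega, h3⟩
    · rintro ⟨j, h1, h2, h3⟩
      rcases Nat.eq_or_lt_of_le h1 with rfl | hlt
      · split_ifs with hk
        · simp only [List.mem_cons]
          rcases h3 with h3 | h3
          · exact Or.inl h3
          · exact Or.inr (Or.inl h3.1)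
        · simp only [List.mem_cons]
          rcases h3 with h3 | h3
          · exact Or.inl h3
          · exact absurd h3.2 hk
      · have h4 : v ∈ outL A m (k + 1) := ih.2 ⟨j, by omega, by omega, h3⟩
        split_ifs with hk
        · simp only [List.mem_cons]
          exact Or.inr (Or.inr h4)
        · simp only [List.mem_cons]
          exact Or.inr h4

theorem nodup_outL (A : Finset ℕ) : ∀ m k, (outL A m k).Nodup
  | 0, k => List.nodup_nil
  | m + 1, k => by
    have ih := nodup_outL A m (k + 1)
    unfold outL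
    have h1 : 2 * k + 2 ∉ outL A m (k + 1) := by
      rw [mem_outL]
      rintro ⟨j, h1, h2, h3⟩
      omega
    have h2 : 2 * k + 1 ∉ outL A m (k + 1) := by
      rw [mem_outL]
      rintro ⟨j, h1, h2, h3⟩
      omega
    split_ifs with hk
    · rw [List.nodup_cons, List.nodup_cons, List.mem_cons]
      exact ⟨by rintro (h | h) <;> [omega; exact h1 h], h2, ih⟩
    · rw [List.nodup_cons]
      exact ⟨h1, ih⟩

theorem mem_inL (A : Finset ℕ) (v : ℕ) : ∀ m, v ∈ inL A m ↔ ∃ j < m, v = 2 * j + 1 ∧ j ∉ A
  | 0 => by simp [inL]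
  | m + 1 => by
    have ih := mem_inL A v m
    unfold inL
    constructor
    · intro h
      split_ifs at h with hk
      · obtain ⟨j, h1, h2⟩ := ih.1 h
        exact ⟨j, by omega, h2⟩
      · rw [List.mem_cons] at h
        rcases h with h | h
        · exact ⟨m, by omega, h, hk⟩
        · obtain ⟨j, h1, h2⟩ := ih.1 h
          exact ⟨j, by omega, h2⟩
    · rintro ⟨j, h1, h2⟩
      rcases Nat.eq_or_lt_of_le (Nat.le_of_lt_succ h1) with rfl | hlt
      · rw [if_neg h2.2, List.mem_cons]
        exact Or.inl h2.1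
      · have h4 : v ∈ inL A m := ih.2 ⟨j, hlt, h2⟩
        split_ifs with hk
        · exact h4
        · exact List.mem_cons_of_mem _ h4

theorem nodup_inL (A : Finset ℕ) : ∀ m, (inL A m).Nodup
  | 0 => List.nodup_nil
  | m + 1 => by
    have ih := nodup_inL A m
    unfold inL
    have h1 : 2 * m + 1 ∉ inL A m := by
      rw [mem_inL]
      rintro ⟨j, h1, h2, h3⟩
      omega
    split_ifs with hk
    · exact ih
    · exact List.nodup_cons.2 ⟨h1, ih⟩

/-- The schedule. -/
def sched (A : Finset ℕ) (n : ℕ) : List ℕ := 0 :: (outL A n 0 ++ (2 * n + 1) :: inL A n)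

theorem mem_sched (A : Finset ℕ) (n v : ℕ) : v ∈ sched A n ↔ v < 2 * n + 2 := by
  unfold sched
  rw [List.mem_cons, List.mem_append, List.mem_cons, mem_outL, mem_inL]
  constructor
  · rintro (h | ⟨j, h⟩ | h | ⟨j, h⟩) <;> omega
  · intro h
    rcases Nat.eq_zero_or_pos v with h0 | h0
    · exact Or.inl h0
    · refine Or.inr ?_
      rcases Nat.even_or_odd' v with ⟨j, hj | hj⟩
      · exact Or.inl ⟨j - 1, by omega, by omega, Or.inl (by omega)⟩
      · rcases Nat.lt_or_ge j n with hjn | hjn
        · by_cases hA : j ∈ A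
          · exact Or.inl ⟨j, by omega, by omega, Or.inr ⟨hj, hA⟩⟩
          · exact Or.inr (Or.inr ⟨j, hjn, hj, hA⟩)
        · exact Or.inr (Or.inl (by omega))

theorem nodup_sched (A : Finset ℕ) (n : ℕ) : (sched A n).Nodup := by
  unfold sched
  rw [List.nodup_cons, List.nodup_append, List.nodup_cons]
  refine ⟨?_, nodup_outL A n 0, ⟨?_, nodup_inL A n⟩, ?_⟩
  · rw [List.mem_append, List.mem_cons, mem_outL, mem_inL]
    rintro (⟨j, h⟩ | h | ⟨j, h⟩) <;> omega
  · rw [mem_inL]
    rintro ⟨j, h⟩
    omega
  · intro u hu v hv huv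
    subst huv
    rw [mem_outL] at hu
    rw [List.mem_cons, mem_inL] at hv
    obtain ⟨j, hj1, hj2, hj3⟩ := hu
    rcases hv with hv | ⟨i, hi1, hi2, hi3⟩
    · omega
    · rcases hj3 with h | ⟨h, hA⟩
      · omega
      · have : i = j := by omega
        exact hi3 (this ▸ hA)

theorem sched_perm (A : Finset ℕ) (n : ℕ) : (sched A n).Perm (List.range (2 * n + 2)) := by
  rw [List.perm_ext_iff_of_nodup (nodup_sched A n) List.nodup_range]
  intro v
  rw [mem_sched, List.mem_range]

namespace IsRed

variable {I : Inst} {n : ℕ} {a : ℕ → ℕ} {t L H S : ℕ}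

theorem travel_right (h : IsRed I n a t L H S) {u v : ℕ} (hu : u ≤ 2 * n + 1) (hv : v ≤ 2 * n + 1)
    (huv : px L a u ≤ px L a v) : I.travel u v + px L a u = px L a v := by
  have h1 := h.htravel u v hu hv
  rw [abs_sub_comm, abs_of_nonneg (by
    have : (px L a u : ℤ) ≤ px L a v := by exact_mod_cast huv
    linarith)] at h1
  zify
  linarith

theorem travel_left (h : IsRed I n a t L H S) {u v : ℕ} (hu : u ≤ 2 * n + 1) (hv : v ≤ 2 * n + 1)
    (huv : px L a v ≤ px L a u) : I.travel u v + px L a v = px L a u := by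
  have h1 := h.htravel u v hu hv
  rw [abs_of_nonneg (by
    have : (px L a v : ℤ) ≤ px L a u := by exact_mod_cast huv
    linarith)] at h1
  zify
  linarith

/-- The weight of the part of `A` below `k`. -/
def part (A : Finset ℕ) (a : ℕ → ℕ) (k : ℕ) : ℕ := ∑ j ∈ Finset.range k, if j ∈ A then a j else 0

/-- The weight of the part of the complement of `A` below `k`. -/
def copart (A : Finset ℕ) (a : ℕ → ℕ) (k : ℕ) : ℕ := ∑ j ∈ Finset.range k, if j ∈ A then 0 else a j

theorem finish_out (h : IsRed I n a t L H S) (A : Finset ℕ) (l : List ℕ) : ∀ m k u τ, k + m = n →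
    u ≤ 2 * n + 1 → px L a u ≤ px L a (2 * k) → τ = px L a u + 1 + k * H + 4 * part A a k →
    ∃ u', u' ≤ 2 * n + 1 ∧ px L a u' ≤ px L a (2 * n) ∧
      I.finish u τ (outL A m k ++ l) =
        I.finish u' (px L a u' + 1 + n * H + 4 * part A a n) l
  | 0, k, u, τ, hk, hu, hpu, hτ => by
    have : k = n := by omega
    subst this
    exact ⟨u, hu, hpu, by rw [hτ]; rfl⟩
  | m + 1, k, u, τ, hk, hu, hpu, hτ => by
    have hkn : k < n := by omega
    have e1 : px L a (2 * k + 1) = px L a (2 * k) + L := by rw [px_succ, wt_even]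
    have e2 : px L a (2 * k + 2) = px L a (2 * k + 1) + a k := by
      rw [show 2 * k + 2 = 2 * k + 1 + 1 by ring, px_succ, wt_odd]
    have e3 : px L a (2 * (k + 1)) = px L a (2 * k + 2) := by rw [show 2 * (k + 1) = 2 * k + 2 by ring]
    have h1 := h.travel_right hu (show 2 * k + 2 ≤ 2 * n + 1 by omega) (by omega)
    have h2 := h.travel_left (u := 2 * k + 2) (v := 2 * k + 1) (by omega) (by omega) (by omega)
    have h3 : part A a (k + 1) = part A a k + if k ∈ A then a k else 0 := by
      unfold part; rw [Finset.sum_range_succ]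
    have h4 : (k + 1) * H = k * H + H := by ring
    unfold outL
    split_ifs with hA
    · rw [if_pos hA] at h3
      have hr := h.rel_odd k hkn
      simp only [List.cons_append, Inst.finish]
      refine finish_out h A l m (k + 1) (2 * k + 1) _ (by omega) (by omega) (by omega) ?_
      rw [h.rel_even k hkn, h.hand_even k hkn, h.hand_odd k hkn, hr, h3, h4, Nat.max_eq_left
        (Nat.zero_le _), Nat.max_eq_left (by omega)]
      omega
    · rw [if_neg hA] at h3
      simp only [List.cons_append, Inst.finish]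
      refine finish_out h A l m (k + 1) (2 * k + 2) _ (by omega) (by omega) (by omega) ?_
      rw [h.rel_even k hkn, h.hand_even k hkn, h3, h4, Nat.max_eq_left (Nat.zero_le _)]
      omega

theorem finish_in (h : IsRed I n a t L H S) (A : Finset ℕ) : ∀ m u τ, m ≤ n →
    u ≤ 2 * n + 1 → px L a (2 * m) ≤ px L a u → I.rel (2 * n + 1) ≤ τ →
      I.finish u τ (inL A m) = τ + px L a u + 2 * copart A a m
  | 0, u, τ, _, hu, _, _ => by
    have h1 := h.travel_left (u := u) (v := 0) hu (by omega) (px_mono L a (Nat.zero_le _))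
    rw [px_zero] at h1
    simp only [inL, Inst.finish, h.hstart, copart, Finset.range_zero, Finset.sum_empty]
    omega
  | m + 1, u, τ, hm, hu, hpu, hτ => by
    have hmn : m < n := by omega
    have e1 : px L a (2 * m + 1) = px L a (2 * m) + L := by rw [px_succ, wt_even]
    have e2 : px L a (2 * m + 2) = px L a (2 * m + 1) + a m := by
      rw [show 2 * m + 2 = 2 * m + 1 + 1 by ring, px_succ, wt_odd]
    have e3 : px L a (2 * (m + 1)) = px L a (2 * m + 2) := by rw [show 2 * (m + 1) = 2 * m + 2 by ring]
    have h3 : copart A a (m + 1) = copart A a m + if m ∈ A then 0 else a m := by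
      unfold copart; rw [Finset.sum_range_succ]
    unfold inL
    split_ifs with hA
    · rw [if_pos hA] at h3
      rw [finish_in h A m u τ (by omega) hu (by omega) hτ, h3, add_zero]
    · rw [if_neg hA] at h3
      have h1 := h.travel_left (u := u) (v := 2 * m + 1) hu (by omega) (by omega)
      have hr := h.rel_odd m hmn
      have hr2 := h.rel_last
      have h5 : px L a (2 * m + 2) ≤ px L a (2 * n + 1) := px_mono L a (by omega)
      rw [h.px_last] at h5
      have h6 : (m + 1) * H ≤ n * H := Nat.mul_le_mul_right _ (by omega)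
      simp only [Inst.finish]
      rw [Nat.max_eq_left (by omega), finish_in h A m (2 * m + 1) _ (by omega) (by omega)
        (by omega) (by omega), h3, h.hand_odd m hmn]
      omega

theorem upper (h : IsRed I n a t L H S) {A : Finset ℕ} (hA : A ⊆ Finset.range n)
    (hsum : ∑ k ∈ A, a k = t) : I.Feasible := by
  refine ⟨sched A n, ?_, ?_⟩
  · rw [h.hn]; exact sched_perm A n
  · have hpart : part A a n = t := by
      unfold part
      rw [← Finset.sum_filter, Finset.filter_mem_eq_inter, Finset.inter_eq_right.2 hA, hsum]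
    have hco : part A a n + copart A a n = S := by
      unfold part copart
      rw [← Finset.sum_add_distrib, h.hS]
      refine Finset.sum_congr rfl fun j _ => ?_
      split_ifs <;> simp
    obtain ⟨u', hu', hpu', hf⟩ := h.finish_out A ((2 * n + 1) :: inL A n) n 0 0 1 (by omega)
      (by omega) le_rfl (by simp [px_zero, part])
    have h0 : I.travel 0 0 = 0 := by simp [Inst.travel]
    unfold Inst.completion sched
    rw [h.hstart, h.hbound]
    simp only [Inst.finish, h0, h.rel_zero, h.hand_zero, add_zero, max_self, zero_add]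
    rw [hf]
    have e1 : px L a (2 * n) ≤ px L a (2 * n + 1) := px_mono L a (by omega)
    have h1 := h.travel_right hu' (le_refl (2 * n + 1)) (by omega)
    rw [h.px_last] at h1
    simp only [Inst.finish]
    have hr := h.rel_last
    rw [Nat.max_eq_left (by omega), h.finish_in A n (2 * n + 1) _ le_rfl le_rfl e1 (by omega),
      h.px_last, h.hand_last]
    omega

theorem feasible_iff (h : IsRed I n a t L H S) :
    I.Feasible ↔ ∃ A ⊆ Finset.range n, ∑ k ∈ A, a k = t :=
  ⟨fun ⟨_, h1, h2⟩ => h.lower h1 h2, fun ⟨_, h1, h2⟩ => h.upper h1 h2⟩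

end IsRed

end Pool.Agent.R872.VS
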